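import Pool.Agent.N804.GM.StmS
import Pool.Agent.N907.SC.Ker

/-!
Project SC, part 4 (helper907): from the critical line to the line `Re s = 3/4 + η`.
-/

set_option autoImplicit false

open Complex Filter Topology Set MeasureTheory

namespace Pool.Agent.N907.SC4

open Pool.Agent.W188.GLR Pool.Agent.N799.LH Pool.Agent.N799.GL Pool.Agent.N804.GM

variable {m : ℕ} {ι : Type} {N : ι → ℕ} {mu : ι → Fin m → ℂ} {f : ι → ℂ → ℂ} {X : ι → ℝ → ℝ} {δ : ℝ}

theorem la_nonneg (H : GLData m N mu f X δ) (i : ι) (u : ℝ) : 0 ≤ la N mu (i, u) :=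
  Real.log_nonneg (QL_pos (H.N_pos i) _ _)

theorem la_add (H : GLData m N mu f X δ) (i : ι) (u y : ℝ) :
    la N mu (i, u + y) ≤ la N mu (i, u) + m * Real.log (1 + |y|) := by
  have := la_shift (H.N_pos i) (mu i) u y |y| le_rfl
  unfold la
  simp only
  linarith

/-- the bound on the line of absolute convergence -/
theorem right_line (H : GLData m N mu f X δ) {η : ℝ} (hη : 0 < η) : ∃ B₁ : ℝ, 0 ≤ B₁ ∧
    ∀ (i : ι) (s : ℂ), s.re = 1 + 2 * η → Real.log ‖f i s‖ ≤ η * la N mu (i, s.im) + B₁ := by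
  have hm0 : (0 : ℝ) ≤ m := Nat.cast_nonneg m
  have hε : 0 < min (2 * η) (η / (m + 2)) := lt_min (by positivity) (by positivity)
  obtain ⟨B, hB⟩ := H.molteni _ hε
  refine ⟨Real.log (|B| + 1), Real.log_nonneg (by linarith [abs_nonneg B]), fun i s hs => ?_⟩
  have hla := la_nonneg H i s.im
  have hlB : 0 ≤ Real.log (|B| + 1) := Real.log_nonneg (by linarith [abs_nonneg B])
  rcases eq_or_ne (f i s) 0 with h0 | h0
  · rw [h0, norm_zero, Real.log_zero]
    positivity
  · have h1 := hB i s (by rw [hs]; linarith [min_le_left (2 * η) (η / (m + 2))])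
    have hP := H.C1 i
    have hP0 : 0 < (N i : ℝ) * ∏ j, (1 + ‖mu i j‖) := by linarith
    have hn : 0 < ‖f i s‖ := norm_pos_iff.2 h0
    have h2 : ‖f i s‖ ≤ (|B| + 1) * (N i * ∏ j, (1 + ‖mu i j‖)) ^ (min (2 * η) (η / (m + 2))) := by
      refine h1.trans ?_
      apply mul_le_mul_of_nonneg_right _ (by positivity)
      linarith [le_abs_self B]
    have h3 := Real.log_le_log hn h2
    have hB0 : 0 < |B| + 1 := by positivity
    rw [Real.log_mul hB0.ne' (by positivity), Real.log_rpow hP0] at h3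
    have h4 : Real.log (N i * ∏ j, (1 + ‖mu i j‖)) ≤ (m + 2) * la N mu (i, s.im) := by
      refine le_trans ?_ (log_X_le H i s.im)
      apply Real.log_le_log hP0
      have := abs_nonneg s.im
      nlinarith
    have h5 : 0 ≤ Real.log (N i * ∏ j, (1 + ‖mu i j‖)) := Real.log_nonneg hP
    have h6 : min (2 * η) (η / (m + 2)) * Real.log (N i * ∏ j, (1 + ‖mu i j‖)) ≤
        η * la N mu (i, s.im) := by
      calc min (2 * η) (η / (m + 2)) * Real.log (N i * ∏ j, (1 + ‖mu i j‖))
          ≤ η / (m + 2) * ((m + 2) * la N mu (i, s.im)) :=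
            mul_le_mul (min_le_right _ _) h4 h5 (by positivity)
        _ = η * la N mu (i, s.im) := by field_simp
    linarith

/-- growth in vertical strips -/
theorem grow (H : GLData m N mu f X δ) (i : ι) (u : ℝ) : ∃ A : ℝ, ∀ s : ℂ, 0 ≤ s.re →
    ‖f i (1 / 2 + s + u * I)‖ ≤ Real.exp (A * (1 + |s.im|)) := by
  obtain ⟨C, hC, hcr⟩ := Pool.Agent.H983R4.GL.crude H.afam
  have hm0 : (0 : ℝ) ≤ m := Nat.cast_nonneg m
  have hP := H.C1 i
  obtain ⟨P, hPe⟩ : ∃ P : ℝ, P = (N i : ℝ) * ∏ j, (1 + ‖mu i j‖) := ⟨_, rfl⟩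
  rw [← hPe] at hP
  have hP0 : 0 < P := by linarith
  have hu : 0 ≤ |u| := abs_nonneg u
  have hD1 : 1 ≤ (1 + |u|) * P := by nlinarith
  have hD0 : 0 < (1 + |u|) * P := by linarith
  refine ⟨Real.log C + m * Real.log ((1 + |u|) * P) + m, fun s hs => ?_⟩
  have e1 : (1 / 2 + s + u * I).re = 1 / 2 + s.re := by simp
  have e2 : (1 / 2 + s + u * I).im = s.im + u := by simp
  have h1 := hcr i (1 / 2 + s + u * I) (by rw [e1]; linarith)
  rw [e2, ← hPe] at h1
  refine h1.trans ?_
  have hy : 0 ≤ |s.im| := abs_nonneg _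
  have h2 : (1 + |s.im + u|) * P ≤ ((1 + |u|) * P) * (1 + |s.im|) := by
    have h3 := abs_add_le s.im u
    have h4 : 1 + |s.im + u| ≤ (1 + |u|) * (1 + |s.im|) := by nlinarith [mul_nonneg hu hy]
    calc (1 + |s.im + u|) * P ≤ ((1 + |u|) * (1 + |s.im|)) * P :=
          mul_le_mul_of_nonneg_right h4 hP0.le
      _ = _ := by ring
  have h0 : 0 ≤ (1 + |s.im + u|) * P := by positivity
  have h3 : ((1 + |s.im + u|) * P) ^ (m : ℝ) ≤ (((1 + |u|) * P) * (1 + |s.im|)) ^ (m : ℝ) :=
    Real.rpow_le_rpow h0 h2 hm0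
  have h5 : 0 < ((1 + |u|) * P) * (1 + |s.im|) := by positivity
  have hC0 : 0 < C := by linarith
  calc C * ((1 + |s.im + u|) * P) ^ (m : ℝ)
      ≤ C * (((1 + |u|) * P) * (1 + |s.im|)) ^ (m : ℝ) := mul_le_mul_of_nonneg_left h3 hC0.le
    _ = Real.exp (Real.log C + (Real.log ((1 + |u|) * P) + Real.log (1 + |s.im|)) * m) := by
        rw [Real.exp_add, Real.exp_log hC0, Real.rpow_def_of_pos h5,
          Real.log_mul hD0.ne' (by positivity)]
    _ ≤ _ := by
        apply Real.exp_le_exp.2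
        have h6 : Real.log (1 + |s.im|) ≤ |s.im| := by
          have := Real.log_le_sub_one_of_pos (show 0 < 1 + |s.im| by positivity)
          linarith
        have h7 : 0 ≤ Real.log C := Real.log_nonneg hC
        have h8 : 0 ≤ Real.log ((1 + |u|) * P) := Real.log_nonneg hD1
        have h9 : Real.log (1 + |s.im|) * m ≤ |s.im| * m := mul_le_mul_of_nonneg_right h6 hm0
        have h10 : 0 ≤ Real.log C * |s.im| := by positivity
        have h11 : 0 ≤ m * Real.log ((1 + |u|) * P) * |s.im| := by positivity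
        nlinarith

theorem main (h : S_STRIP) (hc : S_CVX) : S_HALF := by
  have hcosh : 0 < Real.cosh (4 * Real.pi) := Real.cosh_pos _
  refine ⟨1 / (2 * Real.cosh (4 * Real.pi)), by positivity, ?_⟩
  intro ι m N mu f X δ H η hη hη4
  have hm0 : (0 : ℝ) ≤ m := Nat.cast_nonneg m
  obtain ⟨C₁, hC₁, hcv⟩ := hc ι m N mu f X δ H η hη
  obtain ⟨B₁, hB₁, hrl⟩ := right_line H hη
  obtain ⟨W, hW⟩ : ∃ W : ℝ, W = 1 / 2 + 2 * η := ⟨_, rfl⟩
  have hW1 : 1 / 2 ≤ W := by rw [hW]; linarith
  have hW2 : W ≤ 1 := by rw [hW]; linarith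
  have hW0 : 0 < W := by linarith
  have hl2 : 0 < Real.log 2 := Real.log_pos (by norm_num)
  obtain ⟨E, hE⟩ : ∃ E : ℝ, E = ((1 / 4 + η) * m + η * m) * Pool.Agent.N907.SC.K0 W / (2 * W) := ⟨_, rfl⟩
  refine ⟨(C₁ + B₁) / 2 + |E| + m * Real.log 2, by positivity, ?_⟩
  intro i u hne
  -- the two lines
  have hg : AnalyticOnNhd ℂ (fun z => f i (1 / 2 + z + u * I)) {s : ℂ | 0 ≤ s.re ∧ s.re ≤ W} := by
    have h1 : Differentiable ℂ fun z => f i (1 / 2 + z + u * I) := by
      have := H.entire i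
      fun_prop
    exact h1.differentiableOn.analyticOnNhd isOpen_univ |>.mono (subset_univ _)
  obtain ⟨A, hA⟩ := grow H i u
  have ecen : (1 / 2 + (W : ℂ) / 2 + u * I : ℂ) = ((3 / 4 + η : ℝ) : ℂ) + u * I := by
    rw [hW]
    push_cast
    ring
  obtain ⟨i1, i2, i3⟩ := h (fun z => f i (1 / 2 + z + u * I)) A W hW0 hg
    (fun s hs _ => hA s hs) (by
      rw [ecen]
      exact hne)
  simp only [ecen] at i3
  have hla := la_nonneg H i u
  have hb1 : ∀ y : ℝ, Real.log ‖f i (1 / 2 + y * I + u * I)‖ ≤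
      ((1 / 4 + η) * la N mu (i, u) + C₁) + ((1 / 4 + η) * m) * Real.log (1 + |y|) := by
    intro y
    have h1 := hcv i (u + y)
    have e : (1 / 2 + ((u + y : ℝ) : ℂ) * I : ℂ) = 1 / 2 + y * I + u * I := by
      push_cast
      ring
    rw [e] at h1
    have h2 := la_add H i u y
    have h3 : (1 / 4 + η) * la N mu (i, u + y) ≤
        (1 / 4 + η) * (la N mu (i, u) + m * Real.log (1 + |y|)) :=
      mul_le_mul_of_nonneg_left h2 (by positivity)
    linarith
  have hb2 : ∀ y : ℝ, Real.log ‖f i (1 / 2 + (W + y * I) + u * I)‖ ≤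
      (η * la N mu (i, u) + B₁) + (η * m) * Real.log (1 + |y|) := by
    intro y
    have e1 : (1 / 2 + (W + y * I) + u * I : ℂ).re = 1 + 2 * η := by
      rw [hW]
      simp
      ring
    have e2 : (1 / 2 + (W + y * I) + u * I : ℂ).im = u + y := by
      simp
      ring
    have h1 := hrl i _ e1
    rw [e2] at h1
    have h2 := la_add H i u y
    have h3 : η * la N mu (i, u + y) ≤ η * (la N mu (i, u) + m * Real.log (1 + |y|)) :=
      mul_le_mul_of_nonneg_left h2 hη.le
    linarith
  obtain ⟨k1, k2⟩ := Pool.Agent.N907.SC.main_ineq hW1 hW2 i1 i2 i3 hb1 hb2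
  rw [← hE] at k1 k2
  have hEa := le_abs_self E
  have hml : 0 ≤ m * Real.log 2 := by positivity
  constructor
  · have h4 : 0 ≤ η * la N mu (i, u) := by positivity
    linarith
  · intro t ht
    obtain ⟨ht1, ht2⟩ := abs_le.1 ht
    obtain ⟨ig, k3⟩ := k2 (t - 1 - u) (by linarith) (by linarith)
    obtain ⟨c, hcd⟩ : ∃ c : ℝ, c = 1 / (2 * Real.cosh (4 * Real.pi)) := ⟨_, rfl⟩
    rw [← hcd] at k3 ⊢
    have hc0 : 0 < c := by rw [hcd]; positivity
    have hc1 : c ≤ 1 / 2 := by
      rw [hcd]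
      apply one_div_le_one_div_of_le (by norm_num)
      have := Real.one_le_cosh (4 * Real.pi)
      linarith
    -- la at t and u
    have hlt : la N mu (i, t) ≤ la N mu (i, u) + m * Real.log 2 := by
      have h1 := la_shift (H.N_pos i) (mu i) u (t - u) 1 (by rw [abs_sub_comm]; exact ht)
      rw [add_sub_cancel] at h1
      have e : (1 : ℝ) + 1 = 2 := by norm_num
      rw [e] at h1
      unfold la
      simp only
      linarith
    have hut : la N mu (i, u) ≤ la N mu (i, t) + m * Real.log 2 := by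
      have h1 := la_shift (H.N_pos i) (mu i) t (u - t) 1 ht
      rw [add_sub_cancel] at h1
      have e : (1 : ℝ) + 1 = 2 := by norm_num
      rw [e] at h1
      unfold la
      simp only
      linarith
    -- change of variable
    have hcv2 : ∫ v in (t - 1)..(t + 1), (1 / 4 * la N mu (i, t) -
          Real.log ‖f i (1 / 2 + v * I)‖) =
        ∫ y in (t - 1 - u)..(t - 1 - u + 2), (1 / 4 * la N mu (i, t) -
          Real.log ‖f i (1 / 2 + y * I + u * I)‖) := by
      have h1 := intervalIntegral.integral_comp_add_right (a := t - 1 - u) (b := t - 1 - u + 2)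
        (fun v : ℝ => (1 / 4 * la N mu (i, t) - Real.log ‖f i (1 / 2 + v * I)‖)) u
      have e1 : t - 1 - u + u = t - 1 := by ring
      have e2 : t - 1 - u + 2 + u = t + 1 := by ring
      rw [e1, e2] at h1
      rw [← h1]
      apply intervalIntegral.integral_congr
      intro y _
      simp only
      congr 4
      push_cast
      ring
    have hmono : (∫ y in (t - 1 - u)..(t - 1 - u + 2), (1 / 4 * la N mu (i, t) -
          Real.log ‖f i (1 / 2 + y * I + u * I)‖)) - m * Real.log 2 / 2 ≤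
        ∫ y in (t - 1 - u)..(t - 1 - u + 2), (((1 / 4 + η) * la N mu (i, u) + C₁) +
          ((1 / 4 + η) * m) * Real.log (1 + |y|) - Real.log ‖f i (1 / 2 + y * I + u * I)‖) := by
      have h1 : ∫ _y in (t - 1 - u)..(t - 1 - u + 2), m * Real.log 2 / 4 = m * Real.log 2 / 2 := by
        rw [intervalIntegral.integral_const, smul_eq_mul]
        ring
      rw [← h1, ← intervalIntegral.integral_sub
        (IntervalIntegrable.sub (intervalIntegrable_const) ig) intervalIntegrable_const]
      apply intervalIntegral.integral_mono_on (by linarith)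
      · exact IntervalIntegrable.sub (IntervalIntegrable.sub intervalIntegrable_const ig)
          intervalIntegrable_const
      · refine IntervalIntegrable.sub ?_ ig
        apply Continuous.intervalIntegrable
        refine continuous_const.add (continuous_const.mul (Continuous.log (by fun_prop) fun y => ?_))
        have := abs_nonneg y
        positivity
      · intro y _
        have h2 : 0 ≤ Real.log (1 + |y|) := Real.log_nonneg (by linarith [abs_nonneg y])
        have h3 : 0 ≤ ((1 / 4 + η) * m) * Real.log (1 + |y|) := by positivity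
        have h4 : 0 ≤ η * la N mu (i, u) := by positivity
        linarith
    rw [hcv2]
    have h5 : c * ((∫ y in (t - 1 - u)..(t - 1 - u + 2), (1 / 4 * la N mu (i, t) -
          Real.log ‖f i (1 / 2 + y * I + u * I)‖)) - m * Real.log 2 / 2) ≤
        c * ∫ y in (t - 1 - u)..(t - 1 - u + 2), (((1 / 4 + η) * la N mu (i, u) + C₁) +
          ((1 / 4 + η) * m) * Real.log (1 + |y|) - Real.log ‖f i (1 / 2 + y * I + u * I)‖) :=
      mul_le_mul_of_nonneg_left hmono hc0.le
    have h6 : c * (m * Real.log 2 / 2) ≤ m * Real.log 2 / 4 := by nlinarith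
    have h7 : (1 / 8 + η) * la N mu (i, u) ≤ (1 / 8 + η) * (la N mu (i, t) + m * Real.log 2) :=
      mul_le_mul_of_nonneg_left hut (by positivity)
    have h8 : (1 / 8 + η) * (m * Real.log 2) ≤ 3 / 8 * (m * Real.log 2) :=
      mul_le_mul_of_nonneg_right (by linarith) hml
    have h9 := la_nonneg H i t
    have h10 : 0 ≤ η * la N mu (i, t) := by positivity
    nlinarith

end Pool.Agent.N907.SC4
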